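import Pool.Agent.H42.RAT.Main

/-!
# RATS sequences in which carry-free additions and fully carrying additions alternate
-/

set_option autoImplicit false

namespace Pool.Agent.Results.MP_a315fd_nt.AlternatingCarries

/-- the number whose decimal digits are those of `n` in reverse order -/
def rev (n : ℕ) : ℕ := Nat.ofDigits 10 (Nat.digits 10 n).reverse

/-- the digits of `k` in nondecreasing order, the most significant digit first (digit lists are
little-endian) -/
def sortDigits (k : ℕ) : ℕ :=
  Nat.ofDigits 10 ((Nat.digits 10 k).mergeSort (fun a b => decide (b ≤ a)))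

/-- the RATS map -/
def T (n : ℕ) : ℕ := sortDigits (n + rev n)

/-- the addition `x + y` has a carry out of the column `i` (column `0`: the units) -/
def Carry (x y i : ℕ) : Prop := 10 ^ (i + 1) ≤ x % 10 ^ (i + 1) + y % 10 ^ (i + 1)

/-- The additions of the sequence of `n` eventually alternate between additions without carries and
additions with a carry out of each column if and only if the sequence reaches `1 2 3^m 4^4`, `m ≥ 2`,
or `1^(2t) 7^t`, `t ≥ 1`. -/
theorem result (n : ℕ) (hn : 0 < n) :
    (∃ K : ℕ, ∀ j : ℕ,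
      (∀ i : ℕ, ¬ Carry (T^[K + 2 * j] n) (rev (T^[K + 2 * j] n)) i) ∧
      (∀ i < (Nat.digits 10 (T^[K + 2 * j + 1] n)).length,
        Carry (T^[K + 2 * j + 1] n) (rev (T^[K + 2 * j + 1] n)) i)) ↔
    (∃ k m : ℕ, 2 ≤ m ∧
      T^[k] n = Nat.ofDigits 10 (List.replicate 4 4 ++ List.replicate m 3 ++ [2, 1])) ∨
    (∃ k t : ℕ, 1 ≤ t ∧
      T^[k] n = Nat.ofDigits 10 (List.replicate t 7 ++ List.replicate (2 * t) 1)) := by
  have h := (Pool.RAT.main n hn).2.2
  have hT : Pool.RAT.Trib n ↔ ∃ k m : ℕ, 2 ≤ m ∧
      T^[k] n = Nat.ofDigits 10 (List.replicate 4 4 ++ List.replicate m 3 ++ [2, 1]) := by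
    unfold Pool.RAT.Trib
    simp only [Pool.RAT.trib_iff_ray]
    exact Iff.rfl
  rw [hT] at h
  exact h.symm

end Pool.Agent.Results.MP_a315fd_nt.AlternatingCarries
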